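import Mathlib

set_option autoImplicit false
set_option linter.unusedSectionVars false
set_option linter.unusedVariables false
set_option linter.unusedSimpArgs false

/-!
# A superlinear construction for the alternating pattern `abab`

Rows are increasing sequences of `k + 1` columns.
-/

namespace Pool.Agent.R112.Abab

open Finset

/-- Families of rows with `k + 1` ones per row, `s` special columns, `w` columns, in which every
row starts in a special column and every special column contains exactly `m` ones. -/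
structure Sys (k m s w : ℕ) where
  R : Type
  C : Type
  I : Type
  fR : Fintype R
  lR : LinearOrder R
  fC : Fintype C
  lC : LinearOrder C
  fI : Fintype I
  lI : LinearOrder I
  cardI : Fintype.card I = s
  cardC : Fintype.card C = w
  on : R → Fin (k + 1) → C
  spec : I → C
  a : R → I
  i : R → Fin m
  mono : ∀ x, StrictMono (on x)
  spec_mono : StrictMono spec
  bij : Function.Bijective (fun x => (a x, i x))
  i_mono : ∀ x y, x < y → a x = a y → i x < i y
  on_zero : ∀ x, on x 0 = spec (a x)
  only : ∀ x p b, on x p = spec b → p = 0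
  avoid : ∀ x y, x < y → ∀ p₁ p₂ p₃ p₄, on x p₁ < on y p₂ → on y p₂ < on x p₃ →
    on x p₃ < on y p₄ → False
  inv : ∀ x y, x < y → a x = a y → ∀ p q, p ≠ 0 → q ≠ 0 → on y q ≤ on x p

attribute [instance] Sys.fR Sys.lR Sys.fC Sys.lC Sys.fI Sys.lI

/-- The columns of the combined system. -/
inductive Col (C I D : Type) : Type
  | old : C → Col C I D
  | new : I → D → Col C I D

namespace Col

variable {C I D : Type}

/-- Columns as a sum type. -/
def equiv : Col C I D ≃ C ⊕ (I × D) where
  toFun
    | old c => Sum.inl c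
    | new a d => Sum.inr (a, d)
  invFun
    | Sum.inl c => old c
    | Sum.inr (a, d) => new a d
  left_inv x := by cases x <;> rfl
  right_inv x := by rcases x with x | ⟨x, y⟩ <;> rfl

/-- The position of a column. -/
def pos (spec : I → C) : Col C I D → C ×ₗ WithTop D
  | old c => toLex (c, ⊤)
  | new a d => toLex (spec a, (d : WithTop D))

lemma pos_inj {spec : I → C} (h : Function.Injective spec) :
    Function.Injective (pos (D := D) spec) := by
  intro x y hxy
  cases x <;> cases y <;> simp [pos] at hxy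
  · rw [hxy]
  · rw [h hxy.1, hxy.2]

variable [LinearOrder C] [LinearOrder I] [LinearOrder D]

/-- The order of the columns. -/
@[reducible] def lin (spec : I → C) (h : StrictMono spec) : LinearOrder (Col C I D) :=
  LinearOrder.lift' (pos spec) (pos_inj h.injective)

section
variable (spec : I → C) (h : StrictMono spec)

lemma old_lt_old (c c' : C) : (lin (D := D) spec h).lt (old c) (old c') ↔ c < c' := by
  show pos (D := D) spec (old c) < pos (D := D) spec (old c') ↔ _
  simp [pos, Prod.Lex.toLex_lt_toLex]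

lemma new_lt_old (a : I) (d : D) (c : C) :
    (lin (D := D) spec h).lt (new a d) (old c) ↔ spec a ≤ c := by
  show pos spec (new a d) < pos spec (old c) ↔ _
  simp [pos, Prod.Lex.toLex_lt_toLex]
  rw [le_iff_lt_or_eq]

lemma old_lt_new (a : I) (d : D) (c : C) :
    (lin (D := D) spec h).lt (old c) (new a d) ↔ c < spec a := by
  show pos spec (old c) < pos spec (new a d) ↔ _
  simp [pos, Prod.Lex.toLex_lt_toLex]

lemma new_lt_new (a a' : I) (d d' : D) :
    (lin (D := D) spec h).lt (new a d) (new a' d') ↔ a < a' ∨ a = a' ∧ d < d' := by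
  show pos spec (new a d) < pos spec (new a' d') ↔ _
  simp [pos, Prod.Lex.toLex_lt_toLex, h.lt_iff_lt, h.injective.eq_iff]

end

end Col

lemma lotrans {A : Type} (l : LinearOrder A) {a b c : A} (h1 : l.lt a b) (h2 : l.lt b c) :
    l.lt a c := by
  let _ := l
  exact lt_trans h1 h2

lemma loirrefl {A : Type} (l : LinearOrder A) {a : A} (h1 : l.lt a a) : False := by
  let _ := l
  exact lt_irrefl _ h1

lemma loasymm {A : Type} (l : LinearOrder A) {a b : A} (h1 : l.lt a b) (h2 : l.lt b a) : False :=
  loirrefl l (lotrans l h1 h2)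

section combine

variable {k m sT sL wT wL : ℕ} (T : Sys k sL sT wT) (L : Sys (k + 1) m sL wL)

/-- The index of the special column of `L` used by a row of `T`. -/
noncomputable def dl (t : T.R) : L.I :=
  Fintype.orderIsoFinOfCardEq L.I L.cardI (Fin.rev (T.i t))

lemma dl_lt (t t' : T.R) (h : t < t') (ha : T.a t = T.a t') : dl T L t' < dl T L t := by
  unfold dl
  rw [OrderIso.lt_iff_lt, Fin.rev_lt_rev]
  exact T.i_mono _ _ h ha

/-- The ones of the combined system. -/
noncomputable def onC : T.R ⊕ₗ (T.I ×ₗ L.R) → Fin (k + 1 + 1) → Col T.C T.I L.C := fun x p =>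
  match ofLex x with
  | Sum.inl t => Fin.cases (Col.new (T.a t) (L.spec (dl T L t))) (fun q => Col.old (T.on t q)) p
  | Sum.inr y => Col.new (ofLex y).1 (L.on (ofLex y).2 p)

/-- The special column of a row. -/
noncomputable def aC : T.R ⊕ₗ (T.I ×ₗ L.R) → T.I ×ₗ L.I := fun x =>
  match ofLex x with
  | Sum.inl t => toLex (T.a t, dl T L t)
  | Sum.inr y => toLex ((ofLex y).1, L.a (ofLex y).2)

/-- The index of a row in its special column. -/
noncomputable def iC : T.R ⊕ₗ (T.I ×ₗ L.R) → Fin (m + 1) := fun x =>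
  match ofLex x with
  | Sum.inl t => 0
  | Sum.inr y => (L.i (ofLex y).2).succ

/-- The special columns. -/
def specC : T.I ×ₗ L.I → Col T.C T.I L.C := fun x => Col.new (ofLex x).1 (L.spec (ofLex x).2)


lemma onC_inl_zero (t : T.R) :
    onC T L (toLex (Sum.inl t)) 0 = Col.new (T.a t) (L.spec (dl T L t)) := rfl

lemma onC_inl_succ (t : T.R) (q : Fin (k + 1)) :
    onC T L (toLex (Sum.inl t)) q.succ = Col.old (T.on t q) := rfl

lemma onC_inr (c : T.I) (l : L.R) (p : Fin (k + 1 + 1)) :
    onC T L (toLex (Sum.inr (toLex (c, l)))) p = Col.new c (L.on l p) := rfl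

/-- The order of the columns of the combined system. -/
@[reducible] noncomputable def linC : LinearOrder (Col T.C T.I L.C) := Col.lin T.spec T.spec_mono

lemma spec_le_on (t : T.R) (q : Fin (k + 1)) : T.spec (T.a t) ≤ T.on t q := by
  rw [← T.on_zero]
  exact (T.mono t).monotone (Fin.zero_le _)

lemma monoC (x : T.R ⊕ₗ (T.I ×ₗ L.R)) (p q : Fin (k + 1 + 1)) (hpq : p < q) :
    (linC T L).lt (onC T L x p) (onC T L x q) := by
  rcases x with t | ⟨c, l⟩
  · induction q using Fin.cases with
    | zero => exact absurd hpq (by simp)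
    | succ q =>
      induction p using Fin.cases with
      | zero => exact (Col.new_lt_old _ _ _ _ _).2 (spec_le_on T t q)
      | succ p =>
        exact (Col.old_lt_old _ _ _ _).2 (T.mono t (by simpa using hpq))
  · exact (Col.new_lt_new _ _ _ _ _ _).2 (Or.inr ⟨rfl, L.mono l hpq⟩)

lemma avoidTT (t t' : T.R) (htt' : t < t') (p₁ p₂ p₃ p₄ : Fin (k + 1 + 1))
    (h1 : (linC T L).lt (onC T L (toLex (Sum.inl t)) p₁) (onC T L (toLex (Sum.inl t')) p₂))
    (h2 : (linC T L).lt (onC T L (toLex (Sum.inl t')) p₂) (onC T L (toLex (Sum.inl t)) p₃))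
    (h3 : (linC T L).lt (onC T L (toLex (Sum.inl t)) p₃) (onC T L (toLex (Sum.inl t')) p₄)) :
    False := by
  have h13 : p₁ < p₃ := by
    by_contra hc
    push Not at hc
    have h12 := lotrans (linC T L) h1 h2
    rcases hc.lt_or_eq with h | h
    · exact loasymm (linC T L) h12 (monoC T L _ _ _ h)
    · rw [h] at h12
      exact loirrefl (linC T L) h12
  have h24 : p₂ < p₄ := by
    by_contra hc
    push Not at hc
    have h12 := lotrans (linC T L) h2 h3
    rcases hc.lt_or_eq with h | h
    · exact loasymm (linC T L) h12 (monoC T L _ _ _ h)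
    · rw [h] at h12
      exact loirrefl (linC T L) h12
  induction p₃ using Fin.cases with
  | zero => simp at h13
  | succ q₃ =>
  induction p₄ using Fin.cases with
  | zero => simp at h24
  | succ q₄ =>
  rw [onC_inl_succ] at h2 h3
  rw [onC_inl_succ, Col.old_lt_old] at h3
  induction p₂ using Fin.cases with
  | zero =>
    rw [onC_inl_zero, Col.new_lt_old] at h2
    induction p₁ using Fin.cases with
    | zero =>
      rw [onC_inl_zero, onC_inl_zero, Col.new_lt_new] at h1
      have ha : T.a t < T.a t' := by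
        rcases h1 with h1 | ⟨h1, h1'⟩
        · exact h1
        · rw [L.spec_mono.lt_iff_lt] at h1'
          exact absurd h1' (dl_lt T L t t' htt' h1).asymm
      have hs := T.spec_mono ha
      rcases h2.lt_or_eq with h2 | h2
      · refine T.avoid t t' htt' 0 0 q₃ q₄ ?_ ?_ h3
        · rw [T.on_zero, T.on_zero]; exact hs
        · rw [T.on_zero]; exact h2
      · have := T.only t q₃ _ h2.symm
        rw [this, T.on_zero] at h2
        exact hs.ne h2.symm
    | succ q₁ =>
      rw [onC_inl_succ, onC_inl_zero, Col.old_lt_new] at h1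
      rcases h2.lt_or_eq with h2 | h2
      · refine T.avoid t t' htt' q₁ 0 q₃ q₄ ?_ ?_ h3
        · rw [T.on_zero]; exact h1
        · rw [T.on_zero]; exact h2
      · have := T.only t q₃ _ h2.symm
        rw [this] at h13
        simp at h13
  | succ q₂ =>
    rw [onC_inl_succ, Col.old_lt_old] at h2
    induction p₁ using Fin.cases with
    | zero =>
      rw [onC_inl_zero, onC_inl_succ, Col.new_lt_old] at h1
      rcases h1.lt_or_eq with h1 | h1
      · refine T.avoid t t' htt' 0 q₂ q₃ q₄ ?_ h2 h3
        rw [T.on_zero]; exact h1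
      · have h0 := T.only t' q₂ _ h1.symm
        rw [h0, T.on_zero] at h1
        have ha := T.spec_mono.injective h1
        have h30 : q₃ ≠ 0 := by
          rintro rfl
          rw [h0, T.on_zero, T.on_zero, ha] at h2
          exact lt_irrefl _ h2
        have h40 : q₄ ≠ 0 := by
          rintro rfl
          rw [h0] at h24
          simp at h24
        exact absurd h3 (T.inv t t' htt' ha q₃ q₄ h30 h40).not_gt
    | succ q₁ =>
      rw [onC_inl_succ, onC_inl_succ, Col.old_lt_old] at h1
      exact T.avoid t t' htt' q₁ q₂ q₃ q₄ h1 h2 h3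

lemma avoidC (x y : T.R ⊕ₗ (T.I ×ₗ L.R)) (hxy : x < y) (p₁ p₂ p₃ p₄ : Fin (k + 1 + 1))
    (h1 : (linC T L).lt (onC T L x p₁) (onC T L y p₂))
    (h2 : (linC T L).lt (onC T L y p₂) (onC T L x p₃))
    (h3 : (linC T L).lt (onC T L x p₃) (onC T L y p₄)) :
    False := by
  rcases x with t | ⟨c, l⟩
  · rcases y with t' | ⟨c', l'⟩
    · exact avoidTT T L t t' (Sum.Lex.inl_lt_inl_iff.1 hxy) p₁ p₂ p₃ p₄ h1 h2 h3
    · -- p₃ must be zero
      induction p₃ using Fin.cases with
      | zero =>
        have h12 := lotrans (linC T L) h1 h2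
        rcases (Fin.zero_le p₁).lt_or_eq with h | h
        · exact loasymm (linC T L) h12 (monoC T L _ _ _ h)
        · rw [← h] at h12
          exact loirrefl (linC T L) h12
      | succ q₃ =>
        have h2' : T.spec c' ≤ T.on t q₃ := (Col.new_lt_old _ _ _ _ _).1 h2
        have h3' : T.on t q₃ < T.spec c' := (Col.old_lt_new _ _ _ _ _).1 h3
        exact absurd h3' h2'.not_gt
  · rcases y with t' | ⟨c', l'⟩
    · exact absurd hxy Sum.Lex.not_inr_lt_inl
    · have h1' := (Col.new_lt_new _ _ _ _ _ _).1 h1
      have h2' := (Col.new_lt_new _ _ _ _ _ _).1 h2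
      have h3' := (Col.new_lt_new _ _ _ _ _ _).1 h3
      have hcc : c = c' := by
        rcases h1' with h | h
        · rcases h2' with h' | h'
          · exact absurd h h'.asymm
          · exact h'.1.symm
        · exact h.1
      subst hcc
      have hll : l < l' := by
        have := Sum.Lex.inr_lt_inr_iff.1 hxy
        rcases (Prod.Lex.toLex_lt_toLex).1 this with h | h
        · exact absurd h (lt_irrefl _)
        · exact h.2
      refine L.avoid l l' hll p₁ p₂ p₃ p₄ ?_ ?_ ?_
      · rcases h1' with h | h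
        · exact absurd h (lt_irrefl _)
        · exact h.2
      · rcases h2' with h | h
        · exact absurd h (lt_irrefl _)
        · exact h.2
      · rcases h3' with h | h
        · exact absurd h (lt_irrefl _)
        · exact h.2


lemma spec_monoC (x y : T.I ×ₗ L.I) (h : x < y) : (linC T L).lt (specC T L x) (specC T L y) := by
  rcases x with ⟨a, b⟩
  rcases y with ⟨a', b'⟩
  refine (Col.new_lt_new _ _ _ _ _ _).2 ?_
  rcases (Prod.Lex.toLex_lt_toLex).1 h with h | h
  · exact Or.inl h
  · exact Or.inr ⟨h.1, L.spec_mono h.2⟩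

lemma bijC : Function.Bijective (fun x => (aC T L x, iC T L x)) := by
  constructor
  · intro x y hxy
    rcases x with t | ⟨c, l⟩
    · rcases y with t' | ⟨c', l'⟩
      · have h := (Prod.mk.injEq _ _ _ _).mp hxy
        have h1 : (T.a t, dl T L t) = (T.a t', dl T L t') := h.1
        rw [Prod.mk.injEq] at h1
        have h2 : T.i t = T.i t' := by
          have := h1.2
          unfold dl at this
          simpa using this
        have h3 := T.bij.1 (show (T.a t, T.i t) = (T.a t', T.i t') by rw [h1.1, h2])
        rw [h3]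
      · have h := ((Prod.mk.injEq _ _ _ _).mp hxy).2
        exact absurd h.symm (Fin.succ_ne_zero _)
    · rcases y with t' | ⟨c', l'⟩
      · have h := ((Prod.mk.injEq _ _ _ _).mp hxy).2
        exact absurd h (Fin.succ_ne_zero _)
      · have h := (Prod.mk.injEq _ _ _ _).mp hxy
        have h1 : (c, L.a l) = (c', L.a l') := h.1
        rw [Prod.mk.injEq] at h1
        have h2 : L.i l = L.i l' := Fin.succ_injective _ h.2
        have h3 := L.bij.1 (show (L.a l, L.i l) = (L.a l', L.i l') by rw [h1.2, h2])
        rw [h3, h1.1]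
  · rintro ⟨⟨c, d⟩, j⟩
    induction j using Fin.cases with
    | zero =>
      obtain ⟨t, ht⟩ := T.bij.2 (c, Fin.rev ((Fintype.orderIsoFinOfCardEq L.I L.cardI).symm d))
      have ht' := (Prod.mk.injEq _ _ _ _).mp ht
      refine ⟨toLex (Sum.inl t), ?_⟩
      have hd : dl T L t = d := by
        unfold dl
        rw [ht'.2]; simp
      show ((T.a t, dl T L t), (0 : Fin (m+1))) = _
      rw [ht'.1, hd]
      rfl
    | succ j =>
      obtain ⟨l, hl⟩ := L.bij.2 (d, j)
      have hl' := (Prod.mk.injEq _ _ _ _).mp hl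
      refine ⟨toLex (Sum.inr (toLex (c, l))), ?_⟩
      show ((c, L.a l), (L.i l).succ) = _
      rw [hl'.1, hl'.2]
      rfl

lemma i_monoC (x y : T.R ⊕ₗ (T.I ×ₗ L.R)) (hxy : x < y) (h : aC T L x = aC T L y) :
    iC T L x < iC T L y := by
  rcases x with t | ⟨c, l⟩
  · rcases y with t' | ⟨c', l'⟩
    · have h1 : (T.a t, dl T L t) = (T.a t', dl T L t') := h
      rw [Prod.mk.injEq] at h1
      have := dl_lt T L t t' (Sum.Lex.inl_lt_inl_iff.1 hxy) h1.1
      exact absurd h1.2 this.ne'
    · show (0 : Fin (m + 1)) < (L.i l').succ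
      exact Fin.succ_pos _
  · rcases y with t' | ⟨c', l'⟩
    · exact absurd hxy Sum.Lex.not_inr_lt_inl
    · have h1 : (c, L.a l) = (c', L.a l') := h
      rw [Prod.mk.injEq] at h1
      show (L.i l).succ < (L.i l').succ
      rw [Fin.succ_lt_succ_iff]
      refine L.i_mono _ _ ?_ h1.2
      have := Sum.Lex.inr_lt_inr_iff.1 hxy
      rcases (Prod.Lex.toLex_lt_toLex).1 this with h | h
      · exact absurd h1.1 h.ne
      · exact h.2

lemma on_zeroC (x : T.R ⊕ₗ (T.I ×ₗ L.R)) : onC T L x 0 = specC T L (aC T L x) := by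
  rcases x with t | ⟨c, l⟩
  · rfl
  · show Col.new c (L.on l 0) = Col.new c (L.spec (L.a l))
    rw [L.on_zero]

lemma onlyC (x : T.R ⊕ₗ (T.I ×ₗ L.R)) (p : Fin (k + 1 + 1)) (b : T.I ×ₗ L.I)
    (h : onC T L x p = specC T L b) : p = 0 := by
  rcases x with t | ⟨c, l⟩
  · induction p using Fin.cases with
    | zero => rfl
    | succ p =>
      exact absurd h (by
        intro h
        have h' : Col.old (T.on t p) = Col.new (ofLex b).1 (L.spec (ofLex b).2) := h
        cases h')
  · have h' : Col.new c (L.on l p) = Col.new (ofLex b).1 (L.spec (ofLex b).2) := h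
    rw [Col.new.injEq] at h'
    exact L.only l p _ h'.2

lemma invC (x y : T.R ⊕ₗ (T.I ×ₗ L.R)) (hxy : x < y) (h : aC T L x = aC T L y)
    (p q : Fin (k + 1 + 1)) (hp : p ≠ 0) (hq : q ≠ 0) :
    (linC T L).le (onC T L y q) (onC T L x p) := by
  rcases x with t | ⟨c, l⟩
  · rcases y with t' | ⟨c', l'⟩
    · have h1 : (T.a t, dl T L t) = (T.a t', dl T L t') := h
      rw [Prod.mk.injEq] at h1
      have := dl_lt T L t t' (Sum.Lex.inl_lt_inl_iff.1 hxy) h1.1
      exact absurd h1.2 this.ne'
    · have h1 : (T.a t, dl T L t) = (c', L.a l') := h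
      rw [Prod.mk.injEq] at h1
      induction p using Fin.cases with
      | zero => exact absurd rfl hp
      | succ p =>
        let _ := linC T L
        apply le_of_lt
        refine (Col.new_lt_old _ _ _ _ _).2 ?_
        show T.spec c' ≤ T.on t p
        rw [← h1.1]
        exact spec_le_on T t p
  · rcases y with t' | ⟨c', l'⟩
    · exact absurd hxy Sum.Lex.not_inr_lt_inl
    · have h1 : (c, L.a l) = (c', L.a l') := h
      rw [Prod.mk.injEq] at h1
      obtain ⟨h1, h2⟩ := h1
      subst h1
      have hll : l < l' := by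
        have := Sum.Lex.inr_lt_inr_iff.1 hxy
        rcases (Prod.Lex.toLex_lt_toLex).1 this with h | h
        · exact absurd h (lt_irrefl _)
        · exact h.2
      have h3 := L.inv l l' hll h2 p q hp hq
      let _ := linC T L
      rcases h3.lt_or_eq with h3 | h3
      · apply le_of_lt
        exact (Col.new_lt_new _ _ _ _ _ _).2 (Or.inr ⟨rfl, h3⟩)
      · apply le_of_eq
        show Col.new c (L.on l' q) = Col.new c (L.on l p)
        rw [h3]

/-- The combined system. -/
noncomputable def combine : Sys (k + 1) (m + 1) (sT * sL) (wT + sT * wL) where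
  R := T.R ⊕ₗ (T.I ×ₗ L.R)
  C := Col T.C T.I L.C
  I := T.I ×ₗ L.I
  fR := inferInstanceAs (Fintype (T.R ⊕ (T.I × L.R)))
  lR := inferInstance
  fC := Fintype.ofEquiv _ Col.equiv.symm
  lC := linC T L
  fI := inferInstanceAs (Fintype (T.I × L.I))
  lI := inferInstance
  cardI := by
    have : Fintype.card (T.I × L.I) = sT * sL := by
      rw [Fintype.card_prod, T.cardI, L.cardI]
    exact this
  cardC := by
    rw [Fintype.ofEquiv_card, Fintype.card_sum, Fintype.card_prod, T.cardC, T.cardI, L.cardC]
  on := onC T L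
  spec := specC T L
  a := aC T L
  i := iC T L
  mono := monoC T L
  spec_mono := spec_monoC T L
  bij := bijC T L
  i_mono := i_monoC T L
  on_zero := on_zeroC T L
  only := onlyC T L
  avoid := avoidC T L
  inv := invC T L

end combine

/-- Base systems with one one per row. -/
def base1 (m : ℕ) : Sys 0 m 2 2 where
  R := Fin 2 ×ₗ Fin m
  C := Fin 2
  I := Fin 2
  fR := inferInstanceAs (Fintype (Fin 2 × Fin m))
  lR := inferInstance
  fC := inferInstance
  lC := inferInstance
  fI := inferInstance
  lI := inferInstance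
  cardI := by simp
  cardC := by simp
  on x p := (ofLex x).1
  spec := id
  a x := (ofLex x).1
  i x := (ofLex x).2
  mono := by
    intro x p q h
    exact absurd h (by omega)
  spec_mono := strictMono_id
  bij := by
    constructor
    · intro x y h
      exact h
    · rintro ⟨c, j⟩
      exact ⟨toLex (c, j), rfl⟩
  i_mono := by
    rintro ⟨x1, x2⟩ ⟨y1, y2⟩ h h'
    rcases (Prod.Lex.toLex_lt_toLex).1 h with h | h
    · exact absurd h' h.ne
    · exact h.2
  on_zero := by intro x; rfl
  only := by intro x p b h; omega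
  avoid := by
    intro x y _ p₁ p₂ p₃ p₄ h1 h2 h3
    exact absurd (h1.trans h2) (lt_irrefl _)
  inv := by
    intro x y _ _ p q h _
    exact absurd (by omega) h

/-- Base systems with one one per special column. -/
def base2 (k : ℕ) : Sys k 1 2 (2 * (k + 1)) where
  R := Fin 2
  C := Fin 2 ×ₗ Fin (k + 1)
  I := Fin 2
  fR := inferInstance
  lR := inferInstance
  fC := inferInstanceAs (Fintype (Fin 2 × Fin (k + 1)))
  lC := inferInstance
  fI := inferInstance
  lI := inferInstance
  cardI := by simp
  cardC := by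
    have : Fintype.card (Fin 2 × Fin (k + 1)) = 2 * (k + 1) := by simp
    exact this
  on x p := toLex (x, p)
  spec x := toLex (x, 0)
  a x := x
  i x := 0
  mono := by
    intro x p q h
    exact (Prod.Lex.toLex_lt_toLex).2 (Or.inr ⟨rfl, h⟩)
  spec_mono := by
    intro x y h
    exact (Prod.Lex.toLex_lt_toLex).2 (Or.inl h)
  bij := by
    constructor
    · intro x y h
      exact ((Prod.mk.injEq _ _ _ _).mp h).1
    · rintro ⟨c, j⟩
      exact ⟨c, by rw [Prod.mk.injEq]; exact ⟨rfl, by omega⟩⟩
  i_mono := by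
    intro x y h h'
    exact absurd h' h.ne
  on_zero := by intro x; rfl
  only := by
    intro x p b h
    exact ((Prod.mk.injEq _ _ _ _).mp h).2
  avoid := by
    intro x y hxy p₁ p₂ p₃ p₄ h1 h2 h3
    rcases (Prod.Lex.toLex_lt_toLex).1 h2 with h2 | h2
    · exact absurd (hxy.trans h2) (lt_irrefl _)
    · exact absurd h2.1 hxy.ne'
  inv := by
    intro x y h h'
    exact absurd h' h.ne

/-- The parameters of the construction. -/
theorem exists_sys (k : ℕ) : ∃ b : ℕ, ∀ m : ℕ, ∃ s w : ℕ, 2 ≤ s ∧ w ≤ (m + 1 + b) * s ∧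
    Nonempty (Sys k (m + 1) s w) := by
  induction k with
  | zero =>
    refine ⟨0, fun m => ⟨2, 2, le_rfl, ?_, ⟨base1 (m + 1)⟩⟩⟩
    nlinarith [Nat.zero_le m]
  | succ k ih =>
    obtain ⟨b, hb⟩ := ih
    refine ⟨k + 1 + b, ?_⟩
    have key : ∀ m : ℕ, ∃ s w : ℕ, 2 ≤ s ∧ w + 2 * b ≤ (m + 1 + (k + 1 + b)) * s ∧
        Nonempty (Sys (k + 1) (m + 1) s w) := by
      intro m
      induction m with
      | zero =>
        refine ⟨2, 2 * (k + 1 + 1), le_rfl, ?_, ⟨base2 (k + 1)⟩⟩
        nlinarith
      | succ m ihm =>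
        obtain ⟨sL, wL, hsL, hwL, ⟨L⟩⟩ := ihm
        obtain ⟨sL', rfl⟩ : ∃ s', sL = s' + 1 := ⟨sL - 1, by omega⟩
        obtain ⟨sT, wT, hsT, hwT, ⟨T⟩⟩ := hb sL'
        refine ⟨sT * (sL' + 1), wT + sT * wL, ?_, ?_, ⟨combine T L⟩⟩
        · nlinarith
        · calc wT + sT * wL + 2 * b ≤ (sL' + 1 + b) * sT + sT * wL + sT * b := by
                nlinarith [Nat.mul_le_mul_right b hsT]
            _ = sT * (sL' + 1 + (wL + 2 * b)) := by ring
            _ ≤ sT * (sL' + 1 + (m + 1 + (k + 1 + b)) * (sL' + 1)) := by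
                apply Nat.mul_le_mul_left
                omega
            _ = (m + 1 + 1 + (k + 1 + b)) * (sT * (sL' + 1)) := by ring
    intro m
    obtain ⟨s, w, h1, h2, h3⟩ := key m
    exact ⟨s, w, h1, by omega, h3⟩

lemma Sys.cardR {k m s w : ℕ} (T : Sys k m s w) : Fintype.card T.R = s * m := by
  rw [Fintype.card_congr (Equiv.ofBijective _ T.bij), Fintype.card_prod, T.cardI,
    Fintype.card_fin]

end Pool.Agent.R112.Abab
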