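import Mathlib

set_option autoImplicit false
set_option linter.unusedSectionVars false
set_option linter.unusedSimpArgs false

/-!
# Packing lemma for stochastic matrices of given rank
-/

namespace Pool.Agent.R112.Pack

open Finset Matrix

variable {κ m n : Type*} [Fintype κ] [DecidableEq κ] [Fintype m] [DecidableEq m]
  [Fintype n] [DecidableEq n]

/-- indicator matrix of a partially defined map -/
def E (s : Finset n) (f : n → κ) : Matrix n κ ℝ := fun j b => if j ∈ s ∧ f j = b then 1 else 0

lemma det_rank_one (N : Matrix κ κ ℝ) (hN : N.det ≠ 0) (u v : κ → ℝ) :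
    (N + replicateCol Unit u * replicateRow Unit v).det
      = N.det * (1 + v ⬝ᵥ (N⁻¹ *ᵥ u)) := by
  have hu : IsUnit N.det := isUnit_iff_ne_zero.2 hN
  have h : N + replicateCol Unit u * replicateRow Unit v
      = N * (1 + replicateCol Unit (N⁻¹ *ᵥ u) * replicateRow Unit v) := by
    rw [mul_add, mul_one, ← Matrix.mul_assoc]
    congr 2
    ext i j
    have : (N *ᵥ (N⁻¹ *ᵥ u)) i = u i := by
      rw [mulVec_mulVec, mul_nonsing_inv _ hu, one_mulVec]
    simpa [Matrix.mul_apply, replicateCol_apply, mulVec, dotProduct] using this.symm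
  rw [h, det_mul, det_one_add_replicateCol_mul_replicateRow]

lemma E_insert (V : Matrix κ n ℝ) (s : Finset n) (f : n → κ) (j : n) (hj : j ∉ s) (b : κ) :
    V * E (insert j s) (Function.update f j b)
      = V * E s f + replicateCol Unit (fun a => V a j) * replicateRow Unit (Pi.single b (1:ℝ)) := by
  ext a c
  simp only [Matrix.mul_apply, Matrix.add_apply, E, replicateCol_apply, replicateRow_apply,
    univ_unique, sum_const, card_singleton, one_smul]
  rw [← Finset.add_sum_erase _ _ (mem_univ j), ← Finset.add_sum_erase _ (fun x => V a x * _) (mem_univ j)]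
  have h1 : ∑ x ∈ univ.erase j, V a x * (if x ∈ insert j s ∧ Function.update f j b x = c then (1:ℝ) else 0)
      = ∑ x ∈ univ.erase j, V a x * (if x ∈ s ∧ f x = c then (1:ℝ) else 0) := by
    refine sum_congr rfl fun x hx => ?_
    have hxj : x ≠ j := (mem_erase.1 hx).1
    simp [hxj, Function.update_of_ne hxj]
  rw [h1]
  simp only [mem_insert, true_or, Function.update_self, true_and, hj, false_and, if_false,
    mul_zero, zero_add, Pi.single_apply]
  rw [add_comm]
  congr 2
  by_cases h : b = c
  · simp [h]
  · simp [h, Ne.symm h]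

lemma exists_cols (V : Matrix κ n ℝ) (hV : LinearIndependent ℝ V.row) :
    ∃ c : κ → n, Function.Injective c ∧ (V.submatrix id c).det ≠ 0 := by
  obtain ⟨κ', a, ha, hsp, hli⟩ := exists_linearIndependent' ℝ V.col
  have : Finite κ' := Finite.of_injective a ha
  have := Fintype.ofFinite κ'
  have hr : V.rank = Fintype.card κ := by
    rw [Matrix.rank_eq_finrank_span_row]
    exact finrank_span_eq_card hV
  have hc : Fintype.card κ' = Fintype.card κ := by
    rw [← hr, Matrix.rank_eq_finrank_span_cols, ← hsp]
    exact (finrank_span_eq_card hli).symm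
  let e : κ ≃ κ' := Fintype.equivOfCardEq hc.symm
  refine ⟨a ∘ e, ha.comp e.injective, ?_⟩
  have hli' : LinearIndependent ℝ (V.submatrix id (a ∘ e)).col := by
    have := hli.comp e e.injective
    exact this
  have := Matrix.linearIndependent_cols_iff_isUnit.1 hli'
  exact ((Matrix.isUnit_iff_isUnit_det _).1 this).ne_zero

lemma exists_ne [Nonempty κ] (V : Matrix κ n ℝ) (h0 : ∀ a j, 0 ≤ V a j)
    (hV : LinearIndependent ℝ V.row) : ∃ f : n → κ, (V * E univ f).det ≠ 0 := by
  classical
  obtain ⟨c, hc, hdet⟩ := exists_cols V hV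
  set s0 : Finset n := univ.image c
  suffices H : ∀ t : Finset n, ∃ f : n → κ, (V * E (s0 ∪ t) f).det ≠ 0 by
    obtain ⟨f, hf⟩ := H univ
    refine ⟨f, ?_⟩
    rwa [Finset.union_eq_right.2 (subset_univ s0)] at hf
  intro t
  induction t using Finset.induction_on with
  | empty =>
    refine ⟨Function.invFun c, ?_⟩
    have : V * E (s0 ∪ ∅) (Function.invFun c) = V.submatrix id c := by
      ext a b
      simp only [Matrix.mul_apply, E, union_empty, submatrix_apply, id]
      rw [Finset.sum_eq_single (c b)]
      · simp [s0, Function.leftInverse_invFun hc b]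
      · intro j _ hj
        rw [if_neg, mul_zero]
        rintro ⟨h1, h2⟩
        obtain ⟨b', -, rfl⟩ := mem_image.1 h1
        rw [Function.leftInverse_invFun hc b'] at h2
        exact hj (by rw [h2])
      · intro h; exact absurd (mem_univ _) h
    rw [this]
    exact hdet
  | insert j t hj ih =>
    obtain ⟨f, hf⟩ := ih
    by_cases hjs : j ∈ s0 ∪ t
    · refine ⟨f, ?_⟩
      rw [Finset.union_insert, insert_eq_of_mem hjs]
      exact hf
    · by_contra hcon
      push Not at hcon
      set N := V * E (s0 ∪ t) f with hN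
      have hy : ∀ b, (N⁻¹ *ᵥ (fun a => V a j)) b = -1 := by
        intro b
        have h1 := hcon (Function.update f j b)
        rw [Finset.union_insert, E_insert V _ f j hjs b, det_rank_one _ hf] at h1
        rcases mul_eq_zero.1 h1 with h2 | h2
        · exact absurd h2 hf
        · rw [single_one_dotProduct] at h2
          linarith
      have hv : (fun a => V a j) = N *ᵥ (fun _ => (-1:ℝ)) := by
        have hu : IsUnit N.det := isUnit_iff_ne_zero.2 hf
        have : N *ᵥ (N⁻¹ *ᵥ (fun a => V a j)) = fun a => V a j := by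
          rw [mulVec_mulVec, mul_nonsing_inv _ hu, one_mulVec]
        rw [← this]
        congr 1
        funext b
        exact hy b
      have hN0 : ∀ a b, 0 ≤ N a b := by
        intro a b
        rw [hN, Matrix.mul_apply]
        refine sum_nonneg fun x _ => mul_nonneg (h0 _ _) ?_
        unfold E
        split_ifs <;> norm_num
      have hz : ∀ a b, N a b = 0 := by
        intro a b
        have h1 : V a j = - ∑ b, N a b := by
          have := congrFun hv a
          simpa [mulVec, dotProduct, sum_neg_distrib] using this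
        have h2 : ∑ b, N a b = 0 :=
          le_antisymm (by linarith [h0 a j]) (sum_nonneg fun b _ => hN0 a b)
        exact (sum_eq_zero_iff_of_nonneg fun b _ => hN0 a b).1 h2 b (mem_univ b)
      apply hf
      have : N = 0 := by ext a b; exact hz a b
      rw [this, det_zero]


/-- difference of two unit vectors -/
def dv (b c : κ) : κ → ℝ := (Pi.single b (1:ℝ) : κ → ℝ) - (Pi.single c (1:ℝ) : κ → ℝ)

lemma E_update (V : Matrix κ n ℝ) (f : n → κ) (j : n) (b : κ) :
    V * E univ (Function.update f j b)
      = V * E univ f + replicateCol Unit (fun a => V a j) * replicateRow Unit (dv b (f j)) := by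
  ext a c
  simp only [Matrix.mul_apply, Matrix.add_apply, E, replicateCol_apply, replicateRow_apply,
    univ_unique, sum_const, card_singleton, one_smul, mem_univ, true_and, dv, Pi.sub_apply]
  rw [← Finset.add_sum_erase _ _ (mem_univ j), ← Finset.add_sum_erase _ (fun x => V a x * _) (mem_univ j)]
  have h1 : ∑ x ∈ univ.erase j, V a x * (if Function.update f j b x = c then (1:ℝ) else 0)
      = ∑ x ∈ univ.erase j, V a x * (if f x = c then (1:ℝ) else 0) := by
    refine sum_congr rfl fun x hx => ?_
    have hxj : x ≠ j := (mem_erase.1 hx).1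
    rw [Function.update_of_ne hxj]
  rw [h1]
  simp only [Function.update_self, Pi.single_apply]
  have e1 : (if b = c then (1:ℝ) else 0) = if c = b then 1 else 0 := by simp only [eq_comm]
  have e2 : (if f j = c then (1:ℝ) else 0) = if c = f j then 1 else 0 := by simp only [eq_comm]
  rw [e1, e2]
  ring

/-- data of an optimal partition of the columns -/
structure Opt (V : Matrix κ n ℝ) (f : n → κ) : Prop where
  ne : (V * E univ f).det ≠ 0
  max : ∀ g : n → κ, |(V * E univ g).det| ≤ |(V * E univ f).det|

/-- coordinates of the columns in the basis of the group sums -/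
noncomputable def Y (V : Matrix κ n ℝ) (f : n → κ) : Matrix κ n ℝ := (V * E univ f)⁻¹ * V

lemma exists_opt [Nonempty κ] (V : Matrix κ n ℝ) (h0 : ∀ a j, 0 ≤ V a j)
    (hV : LinearIndependent ℝ V.row) : ∃ f : n → κ, Opt V f := by
  classical
  obtain ⟨f0, hf0⟩ := exists_ne V h0 hV
  obtain ⟨f, -, hf⟩ := Finset.exists_max_image (univ : Finset (n → κ))
    (fun g => |(V * E univ g).det|) ⟨f0, mem_univ _⟩
  refine ⟨f, ?_, fun g => hf g (mem_univ _)⟩
  intro h
  have := hf f0 (mem_univ _)
  rw [h, abs_zero] at this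
  exact hf0 (abs_nonpos_iff.1 this)

variable {V : Matrix κ n ℝ} {f : n → κ}

lemma Opt.det_update (h : Opt V f) (j : n) (b : κ) :
    (V * E univ (Function.update f j b)).det
      = (V * E univ f).det * (1 + (Y V f b j - Y V f (f j) j)) := by
  rw [E_update, det_rank_one _ h.ne, dv, sub_dotProduct, single_one_dotProduct, single_one_dotProduct]
  have : ∀ c, ((V * E univ f)⁻¹ *ᵥ fun a => V a j) c = Y V f c j := by
    intro c
    simp [Y, Matrix.mul_apply, mulVec, dotProduct]
  rw [this, this]

lemma Opt.le (h : Opt V f) (j : n) (b : κ) : Y V f b j ≤ Y V f (f j) j := by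
  have h1 := h.max (Function.update f j b)
  rw [h.det_update, abs_mul] at h1
  have h2 : |1 + (Y V f b j - Y V f (f j) j)| ≤ 1 := by
    have hp : 0 < |(V * E univ f).det| := abs_pos.2 h.ne
    by_contra hc
    push Not at hc
    nlinarith
  have := (abs_le.1 h2).2
  linarith

lemma Opt.tie (h : Opt V f) (j : n) (b : κ) (hb : Y V f b j = Y V f (f j) j) :
    Opt V (Function.update f j b) := by
  have h1 := h.det_update j b
  rw [hb, sub_self, add_zero, mul_one] at h1
  exact ⟨by rw [h1]; exact h.ne, by rw [h1]; exact h.max⟩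

lemma Opt.YE (h : Opt V f) : Y V f * E univ f = 1 := by
  unfold Y
  rw [Matrix.mul_assoc, nonsing_inv_mul _ (isUnit_iff_ne_zero.2 h.ne)]

lemma Opt.expand (h : Opt V f) (A : Matrix m n ℝ) (C : Matrix m κ ℝ) (hA : A = C * V) :
    A * E univ f * Y V f = A := by
  unfold Y
  rw [← Matrix.mul_assoc]
  have : A * E univ f * (V * E univ f)⁻¹ = C := by
    rw [hA, Matrix.mul_assoc C V, Matrix.mul_assoc C, mul_nonsing_inv _ (isUnit_iff_ne_zero.2 h.ne),
      Matrix.mul_one]
  rw [this, hA]

lemma Opt.surj (h : Opt V f) : Function.Surjective f := by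
  intro b
  by_contra hcon
  push Not at hcon
  apply h.ne
  apply det_eq_zero_of_column_eq_zero b
  intro a
  simp only [Matrix.mul_apply, E]
  refine sum_eq_zero fun j _ => ?_
  rw [if_neg, mul_zero]
  rintro ⟨-, h2⟩
  exact hcon j h2

lemma mulE (A : Matrix m n ℝ) (i : m) (b : κ) :
    (A * E univ f) i b = ∑ j with f j = b, A i j := by
  simp only [Matrix.mul_apply, E, mem_univ, true_and, mul_ite, mul_one, mul_zero]
  rw [Finset.sum_filter]

lemma sum_groups (A : Matrix m n ℝ) (i : m) : ∑ b, (A * E univ f) i b = ∑ j, A i j := by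
  simp only [mulE]
  exact Finset.sum_fiberwise _ _ _

lemma Opt.group_sum (h : Opt V f) (b : κ) : ∑ j with f j = b, Y V f (f j) j = 1 := by
  have h1 := congrFun (congrFun h.YE b) b
  rw [mulE, Matrix.one_apply_eq] at h1
  rw [← h1]
  refine sum_congr rfl fun j hj => ?_
  rw [(mem_filter.1 hj).2]

lemma Opt.entry_le (h : Opt V f) (A : Matrix m n ℝ) (C : Matrix m κ ℝ) (hA : A = C * V)
    (h0 : ∀ i j, 0 ≤ A i j) (h1 : ∀ i, ∑ j, A i j = 1) (i : m) (j : n) :
    A i j ≤ Y V f (f j) j := by
  have e : A i j = ∑ b, (A * E univ f) i b * Y V f b j := by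
    conv_lhs => rw [← h.expand A C hA]
    rw [Matrix.mul_apply]
  rw [e]
  calc ∑ b, (A * E univ f) i b * Y V f b j ≤ ∑ b, (A * E univ f) i b * Y V f (f j) j := by
        refine sum_le_sum fun b _ => mul_le_mul_of_nonneg_left (h.le j b) ?_
        rw [mulE]
        exact sum_nonneg fun _ _ => h0 _ _
    _ = Y V f (f j) j := by rw [← sum_mul, sum_groups, h1, one_mul]

/-- the strict case -/
lemma Opt.zero_of_eq (h : Opt V f) (A : Matrix m n ℝ) (C : Matrix m κ ℝ) (hA : A = C * V)
    (h0 : ∀ i j, 0 ≤ A i j) (h1 : ∀ i, ∑ j, A i j = 1) (i : m) (j : n)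
    (he : A i j = Y V f (f j) j) (b : κ) (hb : Y V f b j ≠ Y V f (f j) j) (j' : n) (hj' : f j' = b) :
    A i j' = 0 := by
  have hlt : Y V f b j < Y V f (f j) j := lt_of_le_of_ne (h.le j b) hb
  have e : A i j = ∑ b, (A * E univ f) i b * Y V f b j := by
    conv_lhs => rw [← h.expand A C hA]
    rw [Matrix.mul_apply]
  have hg : ∀ b, 0 ≤ (A * E univ f) i b := by
    intro b; rw [mulE]; exact sum_nonneg fun _ _ => h0 _ _
  have e2 : ∑ b, (A * E univ f) i b * (Y V f (f j) j - Y V f b j) = 0 := by
    simp only [mul_sub, sum_sub_distrib]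
    rw [← e, ← sum_mul, sum_groups, h1, one_mul, he, sub_self]
  have e3 := (sum_eq_zero_iff_of_nonneg fun b _ =>
    mul_nonneg (hg b) (sub_nonneg.2 (h.le j b))).1 e2 b (mem_univ b)
  have e4 : (A * E univ f) i b = 0 := by
    rcases mul_eq_zero.1 e3 with h5 | h5
    · exact h5
    · linarith
  rw [mulE] at e4
  exact (sum_eq_zero_iff_of_nonneg fun x _ => h0 i x).1 e4 j' (mem_filter.2 ⟨mem_univ _, hj'⟩)

/-- rank factorisation through a set of rows -/
lemma exists_rows (A : Matrix m n ℝ) : ∃ (κ : Type) (_ : Fintype κ) (a : κ → m) (C : Matrix m κ ℝ),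
    Fintype.card κ = A.rank ∧ LinearIndependent ℝ (A.submatrix a id).row ∧
    A = C * A.submatrix a id := by
  obtain ⟨κ', a, ha, hsp, hli⟩ := exists_linearIndependent' ℝ A.row
  have : Finite κ' := Finite.of_injective a ha
  have := Fintype.ofFinite κ'
  have hc : Fintype.card κ' = A.rank := by
    rw [Matrix.rank_eq_finrank_span_row, ← hsp]
    exact (finrank_span_eq_card hli).symm
  let e : Fin A.rank ≃ κ' := Fintype.equivOfCardEq (by rw [Fintype.card_fin, hc])
  have hmem : ∀ i, ∃ c : Fin A.rank → ℝ, ∑ r, c r • A.row (a (e r)) = A.row i := by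
    intro i
    have h1 : A.row i ∈ Submodule.span ℝ (Set.range (A.row ∘ a)) := by
      rw [hsp]; exact Submodule.subset_span ⟨i, rfl⟩
    have h2 : Set.range (A.row ∘ a) = Set.range (fun r => A.row (a (e r))) := by
      ext x; constructor
      · rintro ⟨y, rfl⟩; exact ⟨e.symm y, by simp⟩
      · rintro ⟨y, rfl⟩; exact ⟨e y, rfl⟩
    rw [h2] at h1
    exact (Submodule.mem_span_range_iff_exists_fun ℝ).1 h1
  choose C hC using hmem
  refine ⟨Fin A.rank, inferInstance, a ∘ e, Matrix.of C, by simp, hli.comp e e.injective, ?_⟩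
  ext i j
  have := congrFun (hC i) j
  have h2 : A i j = A.row i j := rfl
  rw [Matrix.mul_apply, h2, ← this]
  simp [Finset.sum_apply]

end Pool.Agent.R112.Pack
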