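import Mathlib

set_option autoImplicit false
set_option linter.unusedSectionVars false
set_option linter.unusedSimpArgs false
set_option linter.unusedVariables false

/-!
# Numerical part: products over the parts of a partition
-/

namespace Pool.Agent.R112.PackNum

open Finset

/-- `x log x` -/
noncomputable def phi (m : ℕ) : ℝ := (m : ℝ) * Real.log m

lemma phi_lt (r m : ℕ) (hr : 1 ≤ r) (h1 : m ≠ r) (h2 : m ≠ r + 1) :
    phi r + (phi (r + 1) - phi r) * ((m : ℝ) - r) < phi m := by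
  have hc := Real.strictConvexOn_mul_log
  unfold phi
  rcases lt_or_gt_of_ne h1 with h | h
  · have hm : (m : ℝ) < r := by exact_mod_cast h
    have := hc.slope_strict_mono_adjacent (x := (m : ℝ)) (y := r) (z := ((r + 1 : ℕ) : ℝ))
      (by simp) (by simp; positivity) hm (by push_cast; linarith)
    have e : (((r + 1 : ℕ) : ℝ) - r) = 1 := by push_cast; ring
    rw [e, div_one, div_lt_iff₀ (by linarith)] at this
    nlinarith
  · have h' : r + 1 < m := by omega
    have hm : ((r + 1 : ℕ) : ℝ) < m := by exact_mod_cast h'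
    have := hc.slope_strict_mono_adjacent (x := (r : ℝ)) (y := ((r + 1 : ℕ) : ℝ)) (z := (m : ℝ))
      (by simp) (by simp) (by push_cast; linarith) hm
    have e : (((r + 1 : ℕ) : ℝ) - r) = 1 := by push_cast; ring
    rw [e, div_one, lt_div_iff₀ (by linarith)] at this
    have e2 : (m : ℝ) - r = (m - ((r + 1 : ℕ) : ℝ)) + 1 := by push_cast; ring
    rw [e2]
    nlinarith

lemma phi_eq (r m : ℕ) (h : m = r ∨ m = r + 1) :
    phi r + (phi (r + 1) - phi r) * ((m : ℝ) - r) = phi m := by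
  rcases h with rfl | rfl
  · ring
  · push_cast; ring

lemma phi_le (r m : ℕ) (hr : 1 ≤ r) :
    phi r + (phi (r + 1) - phi r) * ((m : ℝ) - r) ≤ phi m := by
  by_cases h1 : m = r
  · exact (phi_eq r m (Or.inl h1)).le
  · by_cases h2 : m = r + 1
    · exact (phi_eq r m (Or.inr h2)).le
    · exact (phi_lt r m hr h1 h2).le

lemma phi_gap (r : ℕ) (hr : 1 ≤ r) : 0 < (phi (r + 1) - phi r) * r - phi r := by
  have := phi_lt r 0 hr (by omega) (by omega)
  simp only [phi, Nat.cast_zero, zero_mul, zero_sub] at this ⊢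
  linarith

/-- `(1/m)^m = exp (- phi m)` -/
lemma inv_pow_eq (m : ℕ) : (1 / (m : ℝ)) ^ m = Real.exp (- phi m) := by
  rcases Nat.eq_zero_or_pos m with rfl | h
  · simp [phi]
  · have hm : (0 : ℝ) < m := by exact_mod_cast h
    rw [phi, Real.exp_neg, ← Real.log_pow, Real.exp_log (pow_pos hm m), one_div, inv_pow]

/-- the extremal value -/
noncomputable def M (n k : ℕ) : ℝ :=
  (1 / ((n / k : ℕ) : ℝ) ^ (n / k)) ^ (k - n % k) *
    (1 / ((n / k + 1 : ℕ) : ℝ) ^ (n / k + 1)) ^ (n % k)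

lemma M_eq (n k : ℕ) (hk : 1 ≤ k) : M n k = Real.exp (-((k : ℝ) * phi (n / k) +
    (phi (n / k + 1) - phi (n / k)) * (n % k : ℕ))) := by
  unfold M
  have h1 : (1 / ((n / k : ℕ) : ℝ) ^ (n / k)) = Real.exp (- phi (n / k)) := by
    rw [← inv_pow_eq, one_div, one_div, inv_pow]
  have h2 : (1 / ((n / k + 1 : ℕ) : ℝ) ^ (n / k + 1)) = Real.exp (- phi (n / k + 1)) := by
    rw [← inv_pow_eq, one_div, one_div, inv_pow]
  rw [h1, h2, ← Real.exp_nat_mul, ← Real.exp_nat_mul, ← Real.exp_add]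
  congr 1
  have h3 : n % k ≤ k := (Nat.mod_lt _ (by omega)).le
  rw [Nat.cast_sub h3]
  ring

lemma M_pos (n k : ℕ) (hk : 1 ≤ k) : 0 < M n k := by
  rw [M_eq n k hk]; exact Real.exp_pos _

lemma sum_phi {κ : Type*} [Fintype κ] (s : κ → ℕ) (n k : ℕ) (hk : 1 ≤ k) (hsum : ∑ b, s b = n) :
    ∑ b, (phi (n / k) + (phi (n / k + 1) - phi (n / k)) * ((s b : ℝ) - (n / k : ℕ)))
      = ((k : ℝ) * phi (n / k) + (phi (n / k + 1) - phi (n / k)) * (n % k : ℕ)) +
        ((k : ℝ) - Fintype.card κ) * ((phi (n / k + 1) - phi (n / k)) * (n / k : ℕ) - phi (n / k)) := by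
  have hn : (n : ℝ) = k * (n / k : ℕ) + (n % k : ℕ) := by exact_mod_cast (Nat.div_add_mod n k).symm
  have hs : (∑ b, (s b : ℝ)) = n := by exact_mod_cast hsum
  rw [sum_add_distrib, ← mul_sum, sum_sub_distrib, hs, hn]
  simp only [sum_const, card_univ, nsmul_eq_mul]
  ring

lemma prod_le_M {κ : Type*} [Fintype κ] (s : κ → ℕ) (n k : ℕ) (hk : 1 ≤ k) (hkn : k ≤ n)
    (hcard : Fintype.card κ ≤ k) (hsum : ∑ b, s b = n) :
    ∏ b, (1 / (s b : ℝ)) ^ (s b) ≤ M n k := by
  have hr : 1 ≤ n / k := (Nat.one_le_div_iff (by omega)).2 hkn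
  simp only [inv_pow_eq]
  rw [← Real.exp_sum, M_eq n k hk, Real.exp_le_exp, sum_neg_distrib, neg_le_neg_iff]
  have h1 := sum_le_sum fun b (_ : b ∈ (univ : Finset κ)) => phi_le (n / k) (s b) hr
  rw [sum_phi s n k hk hsum] at h1
  have h2 := phi_gap (n / k) hr
  have h3 : (0 : ℝ) ≤ (k : ℝ) - Fintype.card κ := by
    have : (Fintype.card κ : ℝ) ≤ k := by exact_mod_cast hcard
    linarith
  nlinarith [mul_nonneg h3 h2.le]

lemma eq_of_prod_eq_M {κ : Type*} [Fintype κ] (s : κ → ℕ) (n k : ℕ) (hk : 1 ≤ k) (hkn : k ≤ n)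
    (hcard : Fintype.card κ ≤ k) (hsum : ∑ b, s b = n)
    (he : ∏ b, (1 / (s b : ℝ)) ^ (s b) = M n k) :
    Fintype.card κ = k ∧ ∀ b, s b = n / k ∨ s b = n / k + 1 := by
  have hr : 1 ≤ n / k := (Nat.one_le_div_iff (by omega)).2 hkn
  simp only [inv_pow_eq] at he
  rw [← Real.exp_sum, M_eq n k hk, Real.exp_eq_exp, sum_neg_distrib, neg_inj] at he
  have h1 := sum_le_sum fun b (_ : b ∈ (univ : Finset κ)) => phi_le (n / k) (s b) hr
  rw [sum_phi s n k hk hsum] at h1
  have h2 := phi_gap (n / k) hr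
  have h3 : (Fintype.card κ : ℝ) ≤ k := by exact_mod_cast hcard
  have h4 : ((k : ℝ) - Fintype.card κ) *
      ((phi (n / k + 1) - phi (n / k)) * (n / k : ℕ) - phi (n / k)) ≤ 0 := by linarith
  have h5 : (k : ℝ) - Fintype.card κ ≤ 0 := by
    by_contra hc
    push Not at hc
    have := mul_pos hc h2
    linarith
  have h6 : Fintype.card κ = k := by
    have : (k : ℝ) = Fintype.card κ := le_antisymm (by linarith) h3
    exact_mod_cast this.symm
  refine ⟨h6, fun b => ?_⟩
  by_contra hb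
  push Not at hb
  have h7 := sum_lt_sum (s := (univ : Finset κ)) (fun b _ => phi_le (n / k) (s b) hr)
    ⟨b, mem_univ b, phi_lt (n / k) (s b) hr hb.1 hb.2⟩
  rw [sum_phi s n k hk hsum, he] at h7
  have h8 : (k : ℝ) - Fintype.card κ = 0 := by rw [h6]; ring
  rw [h8] at h7
  linarith

lemma prod_eq_M {κ : Type*} [Fintype κ] (s : κ → ℕ) (n k : ℕ) (hk : 1 ≤ k)
    (hcard : Fintype.card κ = k) (hsum : ∑ b, s b = n)
    (hs : ∀ b, s b = n / k ∨ s b = n / k + 1) : ∏ b, (1 / (s b : ℝ)) ^ (s b) = M n k := by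
  simp only [inv_pow_eq]
  rw [← Real.exp_sum, M_eq n k hk, Real.exp_eq_exp, sum_neg_distrib, neg_inj]
  have h1 := sum_phi s n k hk hsum
  rw [hcard, sub_self, zero_mul, add_zero] at h1
  rw [← h1]
  exact sum_congr rfl fun b _ => (phi_eq _ _ (hs b)).symm

/-- AM-GM on a group -/
lemma group_prod {n : Type*} (G : Finset n) (w : n → ℝ) (hw : ∀ j ∈ G, 0 ≤ w j)
    (hs : ∑ j ∈ G, w j = 1) : ∏ j ∈ G, w j ≤ (1 / (G.card : ℝ)) ^ G.card := by
  have hG : G.Nonempty := by
    rw [nonempty_iff_ne_empty]; rintro rfl; simp at hs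
  have hc : (0 : ℝ) < G.card := by exact_mod_cast card_pos.2 hG
  have h1 : ∏ j ∈ G, ((G.card : ℝ) * w j) ≤ ∏ j ∈ G, Real.exp ((G.card : ℝ) * w j - 1) := by
    refine prod_le_prod (fun j hj => mul_nonneg hc.le (hw j hj)) fun j _ => ?_
    have := Real.add_one_le_exp ((G.card : ℝ) * w j - 1)
    linarith
  rw [← Real.exp_sum, sum_sub_distrib, ← mul_sum, hs, sum_const, nsmul_eq_mul, mul_one, sub_self,
    Real.exp_zero, prod_mul_distrib, prod_const] at h1
  rw [one_div, inv_pow, ← one_div, le_div_iff₀ (pow_pos hc _)]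
  linarith

lemma group_prod_eq {n : Type*} (G : Finset n) (w : n → ℝ) (hw : ∀ j ∈ G, 0 ≤ w j)
    (hs : ∑ j ∈ G, w j = 1) (he : ∏ j ∈ G, w j = (1 / (G.card : ℝ)) ^ G.card) (j : n)
    (hj : j ∈ G) : w j = 1 / (G.card : ℝ) := by
  have hc : (0 : ℝ) < G.card := by exact_mod_cast card_pos.2 ⟨j, hj⟩
  have hpos : ∀ i ∈ G, 0 < w i := by
    intro i hi
    refine lt_of_le_of_ne (hw i hi) fun h0 => ?_
    rw [prod_eq_zero hi h0.symm] at he
    have : 0 < (1 / (G.card : ℝ)) ^ G.card := by positivity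
    linarith
  by_contra hne
  have h1 : ∏ j ∈ G, ((G.card : ℝ) * w j) < ∏ j ∈ G, Real.exp ((G.card : ℝ) * w j - 1) := by
    refine prod_lt_prod (fun j hj => mul_pos hc (hpos j hj)) (fun j _ => ?_) ⟨j, hj, ?_⟩
    · have := Real.add_one_le_exp ((G.card : ℝ) * w j - 1)
      linarith
    · have := Real.add_one_lt_exp (x := (G.card : ℝ) * w j - 1) (fun h0 => hne (by
        rw [eq_div_iff hc.ne']; linarith))
      linarith
  rw [← Real.exp_sum, sum_sub_distrib, ← mul_sum, hs, sum_const, nsmul_eq_mul, mul_one, sub_self,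
    Real.exp_zero, prod_mul_distrib, prod_const, he, one_div, inv_pow,
    mul_inv_cancel₀ (pow_pos hc _).ne'] at h1
  exact lt_irrefl _ h1

/-- two maps with fibres of equal cardinalities differ by an equivalence -/
lemma exists_equiv {α β γ : Type*} [Fintype α] [Fintype β] [DecidableEq γ] (f : α → γ) (g : β → γ)
    (h : ∀ c, Fintype.card {a // f a = c} = Fintype.card {b // g b = c}) :
    ∃ e : α ≃ β, ∀ a, g (e a) = f a := by
  refine ⟨(Equiv.sigmaFiberEquiv f).symm.trans
    ((Equiv.sigmaCongrRight fun c => Fintype.equivOfCardEq (h c)).trans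
      (Equiv.sigmaFiberEquiv g)), fun a => ?_⟩
  simp only [Equiv.trans_apply, Equiv.sigmaFiberEquiv, Equiv.coe_fn_symm_mk, Equiv.coe_fn_mk,
    Equiv.sigmaCongrRight_apply, Sigma.map]
  exact ((Fintype.equivOfCardEq (h (f a))) ⟨a, rfl⟩).2

/-- number of parts of each size -/
lemma count_parts {κ : Type*} [Fintype κ] (s : κ → ℕ) (n k : ℕ) (hk : 1 ≤ k)
    (hcard : Fintype.card κ = k) (hsum : ∑ b, s b = n)
    (hs : ∀ b, s b = n / k ∨ s b = n / k + 1) (v : ℕ) :
    Fintype.card {b // s b = v} = if v = n / k + 1 then n % k else if v = n / k then k - n % k else 0 := by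
  classical
  have h1 : ∑ b, s b = k * (n / k) + Fintype.card {b // s b = n / k + 1} := by
    have : ∀ b, s b = n / k + if s b = n / k + 1 then 1 else 0 := by
      intro b
      rcases hs b with h | h
      · rw [h]; simp
      · rw [h]; simp
    rw [sum_congr rfl fun b _ => this b, sum_add_distrib, sum_const, card_univ, hcard,
      Fintype.card_subtype, Finset.card_filter]
    rfl
  have h2 : Fintype.card {b // s b = n / k + 1} = n % k := by
    have := Nat.div_add_mod n k
    omega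
  have h3 : Fintype.card {b // s b = n / k} + Fintype.card {b // s b = n / k + 1} = k := by
    rw [Fintype.card_subtype, Fintype.card_subtype, ← Finset.card_union_of_disjoint]
    · have : (univ.filter fun b => s b = n / k) ∪ (univ.filter fun b => s b = n / k + 1) = univ := by
        ext b
        simp only [mem_union, mem_filter, mem_univ, true_and, iff_true]
        exact hs b
      rw [this, card_univ, hcard]
    · rw [Finset.disjoint_filter]
      intro b _ h4 h5
      omega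
  split_ifs with h4 h5
  · rw [h4, h2]
  · rw [h5]; omega
  · rw [Fintype.card_eq_zero_iff]
    refine ⟨fun ⟨b, hb⟩ => ?_⟩
    rcases hs b with h | h
    · exact h5 (by rw [← hb, h])
    · exact h4 (by rw [← hb, h])

end Pool.Agent.R112.PackNum
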